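import Pool.Agent.K3h76.SB.StmB

set_option autoImplicit false

/-!
# SB brick SPLIT: the double sum
-/

namespace Pool.Agent.K3h43.SB

open Finset PowerSeries Pool.Agent.K3h96.OS Pool.Agent.K3h76.SB

lemma sum_range_two_mul {M : Type} [AddCommMonoid M] (f : ℕ → M) (n : ℕ) :
    ∑ s ∈ range (2 * n), f s = ∑ t ∈ range n, (f (2 * t) + f (2 * t + 1)) := by
  induction n with
  | zero => simp
  | succ n ih =>
    rw [show 2 * (n + 1) = 2 * n + 1 + 1 by ring, sum_range_succ, sum_range_succ, ih,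
      sum_range_succ, add_assoc]

lemma gm1_even (c : ℚ) (t : ℕ) : gm1 c (2 * t) = (Nat.doubleFactorial (2 * t - 1) : ℚ) * c ^ t := by
  unfold gm1
  rw [if_pos (even_two_mul t), Nat.mul_div_cancel_left t (by norm_num)]

lemma gm1_odd (c : ℚ) (t : ℕ) : gm1 c (2 * t + 1) = 0 := by
  unfold gm1
  rw [if_neg]
  rw [Nat.not_even_iff_odd]
  exact odd_two_mul_add_one t

lemma moment_symm (c11 c12 c22 : ℚ) (i j : ℕ) : moment c11 c12 c22 i j = moment c22 c12 c11 j i := by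
  unfold moment
  rw [min_comm]
  refine sum_congr rfl fun l _ => ?_
  rw [mul_comm (i.choose l) (j.choose l)]
  ring

/-- the moments of odd orders -/
lemma moment_odd (h : S_MOM) (c11 c12 c22 : ℚ) (p q : ℕ) (h0 : c11 ≠ 0) :
    moment c11 c12 c22 (2 * p + 1) (2 * q + 1) = ∑ t ∈ range (q + 1),
      ((2 * q + 1).choose (2 * t) : ℚ) * (c12 / c11) ^ (2 * q + 1 - 2 * t) *
        ((Nat.doubleFactorial (2 * t - 1) : ℚ) * (c22 - c12 ^ 2 / c11) ^ t) *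
        ((odf (p + q - t) : ℚ) * c11 ^ (p + q - t + 1)) := by
  rw [h c11 c12 c22 _ _ h0, show 2 * q + 1 + 1 = 2 * (q + 1) by ring, sum_range_two_mul]
  refine sum_congr rfl fun t ht => ?_
  have ht' : t ≤ q := Nat.lt_succ_iff.mp (mem_range.mp ht)
  rw [gm1_even, gm1_odd, mul_zero, zero_mul, add_zero]
  have e : 2 * p + 1 + (2 * q + 1) - 2 * t = 2 * (p + q - t + 1) := by omega
  rw [e, gm1_even]
  have e2 : 2 * (p + q - t + 1) - 1 = 2 * (p + q - t) + 1 := by omega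
  rw [e2]
  rfl

/-- one term of the double sum -/
lemma term (h : S_MOM) (a1 a2 α b1 b2 β : ℕ) (ha1 : 1 ≤ a1) (ha2 : 1 ≤ a2) (hα : 1 ≤ α)
    (p q : ℕ) :
    ((coeff p (kern a1 a2) : ℚ) : ℝ) * ((coeff q (kern b1 b2) : ℚ) : ℝ) *
      ((moment ((a1 * a2 * α : ℕ) / 2) ((a1 * a2 * (b1 * b2) : ℕ) / 2) ((b1 * b2 * β : ℕ) / 2)
        (2 * p + 1) (2 * q + 1) : ℚ) : ℝ) =
    ((a1 * a2 * α : ℕ) / (2 * Real.pi ^ 2) : ℝ) * ((-1) ^ (p + q) * (Gam b1 b2 q * Gam a1 a2 p *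
      ∑ t ∈ range (q + 1), ((2 * q + 1).choose (2 * t) : ℝ) *
        ((b1 * b2 : ℕ) / α : ℝ) ^ (2 * q + 1 - 2 * t) * (Nat.doubleFactorial (2 * t - 1) : ℝ) *
        ((b1 * b2 : ℕ) * ((α * β : ℕ) - (a1 * a2 * (b1 * b2) : ℕ)) / α / (2 * Real.pi ^ 2) : ℝ) ^ t *
        (odf (p + q - t) : ℝ) * ((a1 * a2 * α : ℕ) / (2 * Real.pi ^ 2) : ℝ) ^ (p + q - t))) := by
  have ha1' : (a1 : ℚ) ≠ 0 := by positivity
  have ha2' : (a2 : ℚ) ≠ 0 := by positivity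
  have hα' : (α : ℚ) ≠ 0 := by positivity
  have ha1r : (a1 : ℝ) ≠ 0 := by positivity
  have ha2r : (a2 : ℝ) ≠ 0 := by positivity
  have hαr : (α : ℝ) ≠ 0 := by positivity
  have hc0 : (((a1 * a2 * α : ℕ) : ℚ) / 2) ≠ 0 := by push_cast; positivity
  rw [moment_odd h _ _ _ p q hc0]
  have hπ : Real.pi ≠ 0 := Real.pi_ne_zero
  rw [Rat.cast_sum, mul_sum, mul_sum, mul_sum, mul_sum]
  refine sum_congr rfl fun t ht => ?_
  have ht' : t ≤ q := Nat.lt_succ_iff.mp (mem_range.mp ht)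
  unfold Gam
  have e1 : (((a1 * a2 * (b1 * b2) : ℕ) : ℝ) / 2) / (((a1 * a2 * α : ℕ) : ℝ) / 2) =
      ((b1 * b2 : ℕ) : ℝ) / α := by
    push_cast
    field_simp
  have e2 : (((b1 * b2 * β : ℕ) : ℝ) / 2) - (((a1 * a2 * (b1 * b2) : ℕ) : ℝ) / 2) ^ 2 /
      (((a1 * a2 * α : ℕ) : ℝ) / 2) = Real.pi ^ 2 * (((b1 * b2 : ℕ) : ℝ) * (((α * β : ℕ) : ℝ) -
        ((a1 * a2 * (b1 * b2) : ℕ) : ℝ)) / α / (2 * Real.pi ^ 2)) := by
    push_cast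
    field_simp
  have e3 : ((a1 * a2 * α : ℕ) : ℝ) / 2 = Real.pi ^ 2 * (((a1 * a2 * α : ℕ) : ℝ) /
      (2 * Real.pi ^ 2)) := by
    field_simp
  push_cast at e1 e2 e3 ⊢
  rw [e1, e2]
  generalize ((b1 : ℝ) * b2 / α) = ρ
  generalize ((b1 : ℝ) * b2 * (α * β - a1 * a2 * (b1 * b2)) / α / (2 * Real.pi ^ 2)) = v
  rw [e3]
  generalize ((a1 : ℝ) * a2 * α / (2 * Real.pi ^ 2)) = B
  have hs : ((-1 : ℝ)) ^ (p + q) * ((-1) ^ q * (-1) ^ p) = 1 := by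
    rw [mul_comm ((-1 : ℝ) ^ q), ← pow_add, ← mul_pow]
    norm_num
  have hpow : (Real.pi ^ 2 * B) ^ (p + q - t + 1) * (Real.pi ^ 2 * v) ^ t =
      Real.pi ^ (2 * q + 1) * Real.pi ^ (2 * p + 1) * (B * B ^ (p + q - t) * v ^ t) := by
    have e4 : (Real.pi ^ 2) ^ (p + q - t + 1) * (Real.pi ^ 2) ^ t =
        Real.pi ^ (2 * q + 1) * Real.pi ^ (2 * p + 1) := by
      rw [← pow_add, ← pow_add, ← pow_mul]
      congr 1
      omega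
    rw [mul_pow, mul_pow, pow_succ B]
    linear_combination (B ^ (p + q - t) * B * v ^ t) * e4
  linear_combination ((coeff p (kern a1 a2) : ℚ) : ℝ) * ((coeff q (kern b1 b2) : ℚ) : ℝ) *
    (((2 * q + 1).choose (2 * t) : ℕ) : ℝ) * ρ ^ (2 * q + 1 - 2 * t) *
    ((Nat.doubleFactorial (2 * t - 1) : ℕ) : ℝ) * ((odf (p + q - t) : ℕ) : ℝ) * hpow -
    ((coeff p (kern a1 a2) : ℚ) : ℝ) * ((coeff q (kern b1 b2) : ℚ) : ℝ) *
    (((2 * q + 1).choose (2 * t) : ℕ) : ℝ) * ρ ^ (2 * q + 1 - 2 * t) *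
    ((Nat.doubleFactorial (2 * t - 1) : ℕ) : ℝ) * ((odf (p + q - t) : ℕ) : ℝ) *
    (Real.pi ^ (2 * q + 1) * Real.pi ^ (2 * p + 1) * (B * B ^ (p + q - t) * v ^ t)) * hs

lemma term_left (h : S_MOM) (a1 a2 α b1 b2 β : ℕ) (ha1 : 1 ≤ a1) (ha2 : 1 ≤ a2) (hα : 1 ≤ α)
    (k q : ℕ) (hq : q ≤ k) :
    ((coeff (k - q) (kern a1 a2) : ℚ) : ℝ) * ((coeff q (kern b1 b2) : ℚ) : ℝ) *
      ((moment ((a1 * a2 * α : ℕ) / 2) ((a1 * a2 * (b1 * b2) : ℕ) / 2) ((b1 * b2 * β : ℕ) / 2)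
        (2 * (k - q) + 1) (2 * q + 1) : ℚ) : ℝ) =
    ((a1 * a2 * α : ℕ) / (2 * Real.pi ^ 2) : ℝ) * ((-1) ^ k * (Gam b1 b2 q * Gam a1 a2 (k - q) *
      ∑ t ∈ range (q + 1), ((2 * q + 1).choose (2 * t) : ℝ) *
        ((b1 * b2 : ℕ) / α : ℝ) ^ (2 * q + 1 - 2 * t) * (Nat.doubleFactorial (2 * t - 1) : ℝ) *
        ((b1 * b2 : ℕ) * ((α * β : ℕ) - (a1 * a2 * (b1 * b2) : ℕ)) / α / (2 * Real.pi ^ 2) : ℝ) ^ t *
        (odf (k - t) : ℝ) * ((a1 * a2 * α : ℕ) / (2 * Real.pi ^ 2) : ℝ) ^ (k - t))) := by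
  have h1 := term h a1 a2 α b1 b2 β ha1 ha2 hα (k - q) q
  rwa [Nat.sub_add_cancel hq] at h1

lemma term_right (h : S_MOM) (a1 a2 α b1 b2 β : ℕ) (hb1 : 1 ≤ b1) (hb2 : 1 ≤ b2) (hβ : 1 ≤ β)
    (k p : ℕ) (hp : p ≤ k) :
    ((coeff p (kern a1 a2) : ℚ) : ℝ) * ((coeff (k - p) (kern b1 b2) : ℚ) : ℝ) *
      ((moment ((a1 * a2 * α : ℕ) / 2) ((a1 * a2 * (b1 * b2) : ℕ) / 2) ((b1 * b2 * β : ℕ) / 2)
        (2 * p + 1) (2 * (k - p) + 1) : ℚ) : ℝ) =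
    ((b1 * b2 * β : ℕ) / (2 * Real.pi ^ 2) : ℝ) * ((-1) ^ k * (Gam a1 a2 p * Gam b1 b2 (k - p) *
      ∑ t ∈ range (p + 1), ((2 * p + 1).choose (2 * t) : ℝ) *
        ((a1 * a2 : ℕ) / β : ℝ) ^ (2 * p + 1 - 2 * t) * (Nat.doubleFactorial (2 * t - 1) : ℝ) *
        ((a1 * a2 : ℕ) * ((α * β : ℕ) - (a1 * a2 * (b1 * b2) : ℕ)) / β / (2 * Real.pi ^ 2) : ℝ) ^ t *
        (odf (k - t) : ℝ) * ((b1 * b2 * β : ℕ) / (2 * Real.pi ^ 2) : ℝ) ^ (k - t))) := by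
  have h1 := term_left h b1 b2 β a1 a2 α hb1 hb2 hβ k p hp
  rw [moment_symm, mul_comm (b1 * b2) (a1 * a2), mul_comm β α,
    mul_comm ((coeff (k - p) (kern b1 b2) : ℚ) : ℝ)] at h1
  exact h1

lemma coeff_ser2 (a1 a2 α b1 b2 β k : ℕ) : ((coeff k (ser2 a1 a2 α b1 b2 β) : ℚ) : ℝ) =
    2 * ∑ q ∈ range (k + 1), ((coeff (k - q) (kern a1 a2) : ℚ) : ℝ) *
      ((coeff q (kern b1 b2) : ℚ) : ℝ) *
      ((moment ((a1 * a2 * α : ℕ) / 2) ((a1 * a2 * (b1 * b2) : ℕ) / 2) ((b1 * b2 * β : ℕ) / 2)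
        (2 * (k - q) + 1) (2 * q + 1) : ℚ) : ℝ) := by
  rw [ser2, coeff_mk, ← Nat.sum_antidiagonal_swap, Nat.sum_antidiagonal_eq_sum_range_succ_mk,
    Rat.cast_mul, Rat.cast_sum]
  congr 1
  refine sum_congr rfl fun q _ => ?_
  rw [Rat.cast_mul, Rat.cast_mul]
  rfl

lemma sum_split (f : ℕ → ℝ) (k : ℕ) (hk : 1 ≤ k) : ∑ q ∈ range (k + 1), f q =
    ∑ q ∈ range (k / 2 + 1), f q + ∑ p ∈ range ((k - 1) / 2 + 1), f (k - p) := by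
  have e : k + 1 = (k / 2 + 1) + ((k - 1) / 2 + 1) := by omega
  conv_lhs => rw [e, Finset.sum_range_add f]
  congr 1
  have h1 := sum_range_reflect (fun x => f (k / 2 + 1 + x)) ((k - 1) / 2 + 1)
  rw [← h1]
  refine Finset.sum_congr rfl fun p hp => ?_
  rw [mem_range] at hp
  congr 1
  omega

/-- brick SPLIT -/
theorem t_SPLIT : S_MOM → S_SPLIT := by
  intro h a1 a2 α b1 b2 β ha1 ha2 hα hb1 hb2 hβ
  constructor
  · intro k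
    have key : ((coeff k (ser2 a1 a2 α b1 b2 β) : ℚ) : ℝ) = 2 *
        ((a1 * a2 * α : ℕ) / (2 * Real.pi ^ 2) : ℝ) * ((-1) ^ k * ∑ q ∈ range (k + 1),
        Gam b1 b2 q * Gam a1 a2 (k - q) *
      ∑ t ∈ range (q + 1), ((2 * q + 1).choose (2 * t) : ℝ) *
        ((b1 * b2 : ℕ) / α : ℝ) ^ (2 * q + 1 - 2 * t) * (Nat.doubleFactorial (2 * t - 1) : ℝ) *
        ((b1 * b2 : ℕ) * ((α * β : ℕ) - (a1 * a2 * (b1 * b2) : ℕ)) / α / (2 * Real.pi ^ 2) : ℝ) ^ t *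
        (odf (k - t) : ℝ) * ((a1 * a2 * α : ℕ) / (2 * Real.pi ^ 2) : ℝ) ^ (k - t)) := by
      rw [coeff_ser2, mul_assoc 2]
      congr 1
      rw [mul_sum (range (k + 1)), mul_sum (range (k + 1))]
      refine sum_congr rfl fun q hq => ?_
      exact term_left h a1 a2 α b1 b2 β ha1 ha2 hα k q (Nat.lt_succ_iff.mp (mem_range.mp hq))
    have h2 : ((coeff k (ser2 a1 a2 α b1 b2 β) : ℚ) : ℂ) =
        ((((coeff k (ser2 a1 a2 α b1 b2 β) : ℚ) : ℝ)) : ℂ) := by norm_cast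
    rw [h2, key, halfSeries, coeff_mk, Complex.ofReal_mul, Complex.ofReal_mul]
    rfl
  · intro k hk
    have key : ((coeff k (ser2 a1 a2 α b1 b2 β) : ℚ) : ℝ) = 2 *
        ((a1 * a2 * α : ℕ) / (2 * Real.pi ^ 2) : ℝ) * ((-1) ^ k * ∑ q ∈ range (k / 2 + 1),
        Gam b1 b2 q * Gam a1 a2 (k - q) *
      ∑ t ∈ range (q + 1), ((2 * q + 1).choose (2 * t) : ℝ) *
        ((b1 * b2 : ℕ) / α : ℝ) ^ (2 * q + 1 - 2 * t) * (Nat.doubleFactorial (2 * t - 1) : ℝ) *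
        ((b1 * b2 : ℕ) * ((α * β : ℕ) - (a1 * a2 * (b1 * b2) : ℕ)) / α / (2 * Real.pi ^ 2) : ℝ) ^ t *
        (odf (k - t) : ℝ) * ((a1 * a2 * α : ℕ) / (2 * Real.pi ^ 2) : ℝ) ^ (k - t)) + 2 *
        ((b1 * b2 * β : ℕ) / (2 * Real.pi ^ 2) : ℝ) * ((-1) ^ k * ∑ p ∈ range ((k - 1) / 2 + 1),
        Gam a1 a2 p * Gam b1 b2 (k - p) *
      ∑ t ∈ range (p + 1), ((2 * p + 1).choose (2 * t) : ℝ) *
        ((a1 * a2 : ℕ) / β : ℝ) ^ (2 * p + 1 - 2 * t) * (Nat.doubleFactorial (2 * t - 1) : ℝ) *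
        ((a1 * a2 : ℕ) * ((α * β : ℕ) - (a1 * a2 * (b1 * b2) : ℕ)) / β / (2 * Real.pi ^ 2) : ℝ) ^ t *
        (odf (k - t) : ℝ) * ((b1 * b2 * β : ℕ) / (2 * Real.pi ^ 2) : ℝ) ^ (k - t)) := by
      rw [coeff_ser2, sum_split _ k hk, mul_add, mul_assoc 2, mul_assoc 2]
      congr 1
      · congr 1
        rw [mul_sum (range (k / 2 + 1)), mul_sum (range (k / 2 + 1))]
        refine sum_congr rfl fun q hq => ?_
        rw [mem_range] at hq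
        exact term_left h a1 a2 α b1 b2 β ha1 ha2 hα k q (by omega)
      · congr 1
        rw [mul_sum (range ((k - 1) / 2 + 1)), mul_sum (range ((k - 1) / 2 + 1))]
        refine sum_congr rfl fun p hp => ?_
        rw [mem_range] at hp
        rw [Nat.sub_sub_self (by omega : p ≤ k)]
        exact term_right h a1 a2 α b1 b2 β hb1 hb2 hβ k p (by omega)
    have h2 : ((coeff k (ser2 a1 a2 α b1 b2 β) : ℚ) : ℂ) =
        ((((coeff k (ser2 a1 a2 α b1 b2 β) : ℚ) : ℝ)) : ℂ) := by norm_cast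
    rw [h2, key, halfSeries, halfSeries, coeff_mk, coeff_mk, Complex.ofReal_add]
    congr 1
    · rw [Complex.ofReal_mul, Complex.ofReal_mul]
      rfl
    · rw [Complex.ofReal_mul, Complex.ofReal_mul]
      rfl

end Pool.Agent.K3h43.SB
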